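import Pool.Agent.Helper9.PP.Stm
import Pool.Agent.Helper9.PP.Basic
import Pool.Agent.Helper90.FJ.Ample
import Mathlib.RingTheory.MvPolynomial.WeightedHomogeneous

/-!
Project PP (helper9), package POS: ample line bundles are positive.
-/

set_option autoImplicit false
set_option linter.unusedSectionVars false

namespace Pool.Agent.Helper45.PP

open FF Module MvPolynomial Pool.Agent.Helper9.FJ Pool.Agent.Helper9.PP

variable {K : Type} [Field K] [Algebra ℂ K]

section gauss

variable {σ : Type} {P : Place ℂ K}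

theorem co_add {c : ℤ} {f g : MvPolynomial σ K} (hf : ∀ α, Ge P c (coeff α f))
    (hg : ∀ α, Ge P c (coeff α g)) (α : σ →₀ ℕ) : Ge P c (coeff α (f + g)) := by
  rw [coeff_add]
  exact (hf α).add (hg α)

theorem co_mul {c c' : ℤ} {f g : MvPolynomial σ K} (hf : ∀ α, Ge P c (coeff α f))
    (hg : ∀ α, Ge P c' (coeff α g)) (α : σ →₀ ℕ) : Ge P (c + c') (coeff α (f * g)) := by
  classical
  rw [coeff_mul]
  exact Ge.sum _ fun x _ => (hf x.1).mul (hg x.2)

theorem co_C {c : ℤ} {u : K} (hu : Ge P c u) (α : σ →₀ ℕ) :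
    Ge P c (coeff α (C u : MvPolynomial σ K)) := by
  classical
  rw [coeff_C]
  split_ifs
  · exact hu
  · exact ge_zero

theorem co_X (x : σ) (α : σ →₀ ℕ) : Ge P 0 (coeff α (X x : MvPolynomial σ K)) := by
  classical
  rw [MvPolynomial.coeff_X]
  split_ifs
  · exact ge_one
  · exact ge_zero

theorem co_sum {c : ℤ} {ι : Type} (s : Finset ι) {f : ι → MvPolynomial σ K}
    (hf : ∀ i ∈ s, ∀ α, Ge P c (coeff α (f i))) (α : σ →₀ ℕ) :
    Ge P c (coeff α (∑ i ∈ s, f i)) := by
  rw [coeff_sum]
  exact Ge.sum _ fun i hi => hf i hi α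

theorem co_prod {c : ℤ} {ι : Type} (s : Finset ι) {f : ι → MvPolynomial σ K}
    (hf : ∀ i ∈ s, ∀ α, Ge P c (coeff α (f i))) (α : σ →₀ ℕ) :
    Ge P (s.card * c) (coeff α (∏ i ∈ s, f i)) := by
  classical
  induction s using Finset.induction_on generalizing α with
  | empty =>
    rw [Finset.prod_empty, Finset.card_empty, Nat.cast_zero, zero_mul]
    exact co_C ge_one α
  | insert a s ha ih =>
    rw [Finset.prod_insert ha, Finset.card_insert_of_notMem ha]
    have := co_mul (hf a (Finset.mem_insert_self _ _))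
      (fun α => ih (fun i hi => hf i (Finset.mem_insert_of_mem hi)) α) α
    refine this.mono (le_of_eq ?_)
    push_cast
    ring

theorem co_pow {f : MvPolynomial σ K} (hf : ∀ α, Ge P 0 (coeff α f)) (n : ℕ) (α : σ →₀ ℕ) :
    Ge P 0 (coeff α (f ^ n)) := by
  have := co_prod (Finset.range n) (f := fun _ => f) (fun _ _ => hf) α
  rwa [Finset.prod_const, Finset.card_range, mul_zero] at this

end gauss

section ps

variable {l : ℕ} {r R T : Fin l → ℕ}

theorem psM_C (h : ∀ j, Matrix (Fin (r j)) (Fin (R j)) K) (u : K) :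
    psM h (C u) = C u := by
  rw [psM, aeval_C]
  rfl

theorem psM_X (h : ∀ j, Matrix (Fin (r j)) (Fin (R j)) K) (x : Vr r) :
    psM h (X x) = ∑ i, C (h x.1 x.2 i) * X ⟨x.1, i⟩ := by
  rw [psM, aeval_X]

theorem psM_psM (h : ∀ j, Matrix (Fin (r j)) (Fin (R j)) K)
    (g : ∀ j, Matrix (Fin (R j)) (Fin (T j)) K) (s : MvPolynomial (Vr r) K) :
    psM g (psM h s) = psM (fun j => h j * g j) s := by
  have : (psM g).comp (psM h) = psM (fun j => h j * g j) := by
    apply MvPolynomial.algHom_ext
    intro x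
    obtain ⟨j, i0⟩ := x
    rw [AlgHom.comp_apply, psM_X, psM_X, map_sum]
    have h1 : ∀ i : Fin (R j), psM g (C (h j i0 i) * X (⟨j, i⟩ : Vr R)) =
        ∑ k, C (h j i0 i * g j i k) * X (⟨j, k⟩ : Vr T) := by
      intro i
      rw [_root_.map_mul, psM_C, psM_X, Finset.mul_sum]
      refine Finset.sum_congr rfl fun k _ => ?_
      rw [C_mul, mul_assoc]
    refine (Finset.sum_congr rfl fun i _ => h1 i).trans ?_
    have h2 : ∀ k : Fin (T j), C ((h j * g j) i0 k) * X (⟨j, k⟩ : Vr T) =
        ∑ i, C (h j i0 i * g j i k) * X (⟨j, k⟩ : Vr T) := by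
      intro k
      rw [Matrix.mul_apply, map_sum, Finset.sum_mul]
    refine Eq.trans ?_ (Finset.sum_congr rfl fun k _ => (h2 k).symm)
    exact Finset.sum_comm
  exact DFunLike.congr_fun this s

theorem psM_one (s : MvPolynomial (Vr r) K) :
    psM (fun j => (1 : Matrix (Fin (r j)) (Fin (r j)) K)) s = s := by
  have : psM (fun j => (1 : Matrix (Fin (r j)) (Fin (r j)) K)) = AlgHom.id K _ := by
    apply MvPolynomial.algHom_ext
    rintro ⟨j, i⟩
    rw [psM_X, AlgHom.id_apply, Finset.sum_eq_single i]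
    · simp
    · intro k _ hk
      simp [Matrix.one_apply_ne hk.symm]
    · intro h; exact absurd (Finset.mem_univ _) h
  rw [this]
  rfl

theorem locM_eq (E : ∀ j, Bundle K (r j)) (P : Place ℂ K) (s : MvPolynomial (Vr r) K) :
    locM E P s = psM (fun j => ((E j).B P)⁻¹) s := rfl

/-- regular substitutions -/
theorem co_psM {P : Place ℂ K} {c : ℤ} (h : ∀ j, Matrix (Fin (r j)) (Fin (R j)) K)
    (hh : ∀ j i k, Ge P 0 (h j i k)) {s : MvPolynomial (Vr r) K} (hs : ∀ α, Ge P c (coeff α s))
    (α : Vr R →₀ ℕ) : Ge P c (coeff α (psM h s)) := by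
  classical
  have h1 : s = ∑ β ∈ s.support, C (coeff β s) * monomial β 1 := by
    conv_lhs => rw [← support_sum_monomial_coeff s]
    refine Finset.sum_congr rfl fun β _ => ?_
    rw [C_mul_monomial, mul_one]
  rw [h1, map_sum]
  refine co_sum _ (fun β _ α => ?_) α
  rw [_root_.map_mul, psM_C]
  have h2 : ∀ α, Ge P 0 (coeff α (psM h (monomial β 1))) := by
    intro α
    rw [monomial_eq, Finsupp.prod_fintype _ _ (fun i => pow_zero _), C_1, one_mul, map_prod]
    have := co_prod (P := P) (c := 0) Finset.univ (f := fun x : Vr r => psM h (X x ^ β x)) (by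
      intro x _ α
      rw [_root_.map_pow]
      refine co_pow (fun α => ?_) _ α
      rw [psM_X]
      refine co_sum _ (fun i _ α => ?_) α
      have := co_mul (co_C (hh x.1 x.2 i)) (co_X (P := P) (⟨x.1, i⟩ : Vr R)) α
      rwa [add_zero] at this) α
    rwa [mul_zero] at this
  have := co_mul (co_C (hs β)) h2 α
  rwa [add_zero] at this

end ps

section mh

variable {l : ℕ} {r R : Fin l → ℕ}

/-- the weights -/
def wt {r : Fin l → ℕ} (x : Vr r) : Fin l → ℕ := Pi.single x.1 1

theorem weight_wt (α : Vr r →₀ ℕ) (j : Fin l) :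
    Finsupp.weight (wt (r := r)) α j = ∑ i, α ⟨j, i⟩ := by
  rw [Finsupp.weight_apply, Finsupp.sum_fintype _ _ (fun i => by simp), Finset.sum_apply,
    Fintype.sum_sigma, Finset.sum_eq_single j]
  · refine Finset.sum_congr rfl fun i _ => ?_
    simp [wt]
  · intro k _ hk
    apply Finset.sum_eq_zero
    intro i _
    simp [wt, hk.symm]
  · intro h; exact absurd (Finset.mem_univ _) h

theorem isMh_iff {a : Fin l → ℕ} {s : MvPolynomial (Vr r) K} :
    IsMh a s ↔ IsWeightedHomogeneous (wt (r := r)) s a := by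
  constructor
  · intro h α hα
    ext j
    rw [weight_wt]
    exact h α hα j
  · intro h α hα j
    rw [← weight_wt, h hα]

theorem isMh_psM {a : Fin l → ℕ} {s : MvPolynomial (Vr r) K} (hs : IsMh a s)
    (h : ∀ j, Matrix (Fin (r j)) (Fin (R j)) K) : IsMh a (psM h s) := by
  classical
  rw [isMh_iff] at hs ⊢
  have h1 : s = ∑ β ∈ s.support, C (coeff β s) * monomial β 1 := by
    conv_lhs => rw [← support_sum_monomial_coeff s]
    refine Finset.sum_congr rfl fun β _ => ?_
    rw [C_mul_monomial, mul_one]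
  rw [h1, map_sum]
  refine IsWeightedHomogeneous.sum _ _ _ fun β hβ => ?_
  rw [_root_.map_mul, psM_C]
  have hβ' : Finsupp.weight (wt (r := r)) β = a := hs (mem_support_iff.1 hβ)
  have h2 : IsWeightedHomogeneous (wt (r := R)) (psM h (monomial β 1)) a := by
    rw [monomial_eq, Finsupp.prod_fintype _ _ (fun i => pow_zero _), C_1, one_mul, map_prod,
      ← hβ', Finsupp.weight_apply, Finsupp.sum_fintype _ _ (fun i => by simp)]
    refine IsWeightedHomogeneous.prod _ _ _ fun x _ => ?_
    rw [_root_.map_pow]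
    refine IsWeightedHomogeneous.pow ?_ _
    rw [psM_X]
    refine IsWeightedHomogeneous.sum _ _ _ fun i _ => ?_
    have := (isWeightedHomogeneous_C (wt (r := R)) (h x.1 x.2 i)).mul
      (isWeightedHomogeneous_X K (wt (r := R)) (⟨x.1, i⟩ : Vr R))
    rw [zero_add] at this
    exact this
  have := (isWeightedHomogeneous_C (wt (r := R)) (coeff β s)).mul h2
  rwa [zero_add] at this

theorem isMh_C_mul {a : Fin l → ℕ} {s : MvPolynomial (Vr r) K} (hs : IsMh a s) (u : K) :
    IsMh a (C u * s) := by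
  intro α hα
  rw [coeff_C_mul] at hα
  exact hs α (right_ne_zero_of_mul hα)

/-- a form of degree zero in one group does not depend on this group -/
theorem eval_congr {a : Fin l → ℕ} {s : MvPolynomial (Vr r) K} (hs : IsMh a s) (j : Fin l)
    (ha : a j = 0) (v w : Vr r → K) (h : ∀ x : Vr r, x.1 ≠ j → v x = w x) :
    eval v s = eval w s := by
  rw [eval_eq', eval_eq']
  refine Finset.sum_congr rfl fun α hα => ?_
  congr 1
  refine Finset.prod_congr rfl fun x _ => ?_
  by_cases hx : x.1 = j
  · have h1 := hs α (mem_support_iff.1 hα) j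
    rw [ha] at h1
    have h2 : α x = 0 := by
      obtain ⟨j', i⟩ := x
      simp only at hx
      subst hx
      exact (Finset.sum_eq_zero_iff.1 h1) i (Finset.mem_univ _)
    rw [h2, pow_zero, pow_zero]
  · rw [h x hx]

end mh

theorem pos_degreeM [IsFF ℂ K] {l : ℕ} {r : Fin l → ℕ} {E : ∀ j, Bundle K (r j)}
    (hr : ∀ j, 2 ≤ r j) {a : Fin l → ℕ} {N : Place ℂ K →₀ ℤ} (h : VeryAmpleM E a N) (j : Fin l) :
    0 < a j := by
  classical
  by_contra ha
  have ha0 : a j = 0 := by omega
  obtain ⟨P, -⟩ := exists_place (k := ℂ) (K := K)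
  let e0 : ∀ j, Fin (r j) := fun j => ⟨0, by have := hr j; omega⟩
  let e1 : ∀ j, Fin (r j) := fun j => ⟨1, by have := hr j; omega⟩
  have h01 : ∀ j, e0 j ≠ e1 j := by
    intro j h
    have := congrArg Fin.val h
    simp [e0, e1] at this
  let ξ : ∀ j, Fin (r j) → ℂ := fun j => Pi.single (e0 j) 1
  let η : ∀ j, Fin (r j) → ℂ := Function.update ξ j (Pi.single (e1 j) 1)
  have hξ : ∀ j, ξ j ≠ 0 := by
    intro j h
    have := congrFun h (e0 j)
    simp [ξ] at this
  have hη : ∀ j, η j ≠ 0 := by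
    intro k h
    by_cases hk : k = j
    · subst hk
      have := congrFun h (e1 k)
      simp [η] at this
    · rw [show η k = ξ k from Function.update_of_ne hk _ _] at h
      exact hξ k h
  obtain ⟨s, hs, h1, h2⟩ := h.2.1 P P ξ η hξ hη (by
    intro _
    refine ⟨j, ?_⟩
    rintro ⟨c, hc⟩
    have := congrFun hc (e1 j)
    rw [show η j = Pi.single (e1 j) 1 from Function.update_self _ _ _, Pi.smul_apply,
      Pi.single_eq_same, show ξ j (e1 j) = 0 from Pi.single_eq_of_ne (h01 j).symm _,
      smul_zero] at this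
    exact one_ne_zero this)
  apply h2
  rwa [eval_congr hs.1 j ha0 (ptM E P η) (ptM E P ξ)]
  intro x hx
  change pt (E x.1) P (η x.1) x.2 = pt (E x.1) P (ξ x.1) x.2
  rw [show η x.1 = ξ x.1 from Function.update_of_ne hx _ _]

/-- **Package POS.** -/
theorem pos (hMIN : S_MIN) (hSEC : S_SEC) (hGROW : S_GROW) (hJETS : S_JETS) : S_POS := by
  classical
  intro K _ _ _ l r E hr
  have hr0 : ∀ j, 0 < r j := fun j => by have := hr j; omega
  choose R Λ Y d hR hY hQ hSL using fun j => hMIN (E j) (hr0 j)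
  refine ⟨fun j => (ddeg (d j) / R j : ℝ), hSL, ?_⟩
  rintro a b ⟨M, hM, hVA⟩
  have hpos := pos_degreeM hr hVA
  refine ⟨fun j => Nat.pos_of_mul_pos_left (hpos j), ?_⟩
  set a' := M • a with ha'
  set N := M • b with hN
  choose hQ1 S hS using fun P j => hQ j P
  obtain ⟨P0, -⟩ := exists_place (k := ℂ) (K := K)
  obtain ⟨t, -, ht⟩ := P0.surj
  have ht0 : t ≠ 0 := by rintro rfl; rw [P0.ord_zero] at ht; omega
  -- the frames
  let g : ∀ (_ : Place ℂ K) j, Matrix (Fin (R j)) (Fin (R j)) K := fun P j =>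
    ((E j).B P * Λ j).submatrix (S P j) id
  have hg : ∀ P j, (g P j).det ≠ 0 := fun P j => (hS P j).1
  have hunit : ∀ P j, IsUnit (g P j).det := fun P j => isUnit_iff_ne_zero.2 (hg P j)
  have hreg : ∀ P j m k, Ge P 0 (((E j).B P * Λ j * (g P j)⁻¹) m k) := fun P j m k =>
    Helper90.FJ.coord_reg ((E j).B P * Λ j) (S P j) (hQ1 P j) (hS P j).2 m k
  have hsec : ∀ (P : Place ℂ K) (s : MvPolynomial (Vr r) K), IsSecM E a' N s →
      ∀ α, Ge P (-N P) (coeff α (psM (fun j => Λ j * (g P j)⁻¹) s)) := by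
    intro P s hs α
    have h1 : psM (fun j => Λ j * (g P j)⁻¹) s =
        psM (fun j => (E j).B P * Λ j * (g P j)⁻¹) (locM E P s) := by
      rw [locM_eq, psM_psM]
      congr 2
      funext j
      rw [Matrix.mul_assoc, ← Matrix.mul_assoc ((E j).B P)⁻¹,
        Matrix.nonsing_inv_mul _ (isUnit_iff_ne_zero.2 ((E j).det_ne P)), Matrix.one_mul]
    rw [h1]
    exact co_psM _ (hreg P) (hs.2 P) α
  have htN : Ge P0 (N P0) (t ^ (N P0)) := Or.inr (by rw [P0.ord_zpow, ht]; simp)
  obtain ⟨s0, s, hs0, hs, hjet⟩ := hJETS E hR Λ P0 t (fun j => d j P0) ht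
    (fun j S' => hQ1 P0 j S') (fun j => S P0 j) (fun j => hS P0 j) a' N hVA
  obtain ⟨Mb, hMb, f, hf0, hfh, hf1, hfs⟩ := hGROW hR P0 t ht a' _ _
    (isMh_C_mul (isMh_psM hs0.1 _) _) (fun k => isMh_C_mul (isMh_psM (hs k).1 _) _)
    (fun α => by
      have := co_mul (co_C htN) (hsec P0 s0 hs0) α
      rwa [add_neg_cancel] at this)
    (fun k α => by
      have := co_mul (co_C htN) (hsec P0 (s k) (hs k)) α
      rwa [add_neg_cancel] at this) hjet
  -- the form on the generic fibre
  let u : K := t ^ (-(Mb * N P0))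
  have hu : Ge P0 (-(Mb * N P0)) u := Or.inr (by
    change _ ≤ P0.ord (t ^ (-(Mb * N P0)))
    rw [P0.ord_zpow, ht]; simp)
  have hu0 : u ≠ 0 := zpow_ne_zero _ ht0
  let G : MvPolynomial (Vr R) K := C u * psM (g P0) f
  have hG1 : psM (fun j => (g P0 j)⁻¹) G = C u * f := by
    change psM _ (C u * psM (g P0) f) = _
    rw [_root_.map_mul, psM_C, psM_psM]
    congr 1
    have : (fun j => g P0 j * (g P0 j)⁻¹) = fun j => (1 : Matrix (Fin (R j)) (Fin (R j)) K) := by
      funext j
      exact Matrix.mul_nonsing_inv _ (hunit P0 j)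
    rw [this, psM_one]
  have hG0 : G ≠ 0 := by
    intro h
    rw [h, _root_.map_zero] at hG1
    exact mul_ne_zero (by rwa [Ne, C_eq_zero]) hf0 hG1.symm
  have hGh : IsMh (Mb • a') G := isMh_C_mul (isMh_psM hfh _) _
  have hall : ∀ P α, Ge P (-(Mb * N P)) (coeff α (psM (fun j => (g P j)⁻¹) G)) := by
    intro P
    refine Submodule.span_induction (p := fun f _ => ∀ α, Ge P (-(Mb * N P))
      (coeff α (psM (fun j => (g P j)⁻¹) (C u * psM (g P0) f)))) ?_ ?_ ?_ ?_ hfs
    · rintro _ ⟨w, rfl⟩ α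
      let sec : Option (Option (Fr R)) → MvPolynomial (Vr r) K := fun w => w.elim s0 s
      have hsec' : ∀ w, IsSecM E a' N (sec w) := by
        intro w
        cases w with
        | none => exact hs0
        | some k => exact hs k
      have h1 : psM (fun j => (g P j)⁻¹) (C u * psM (g P0) (∏ i, (w i).elim
          (C (t ^ N P0) * psM (fun j => Λ j * (((E j).B P0 * Λ j).submatrix (S P0 j) id)⁻¹) s0)
          (fun k => C (t ^ N P0) *
            psM (fun j => Λ j * (((E j).B P0 * Λ j).submatrix (S P0 j) id)⁻¹) (s k)))) =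
          ∏ i, psM (fun j => Λ j * (g P j)⁻¹) (sec (w i)) := by
        have h2 : ∀ i, psM (g P0) ((w i).elim
          (C (t ^ N P0) * psM (fun j => Λ j * (((E j).B P0 * Λ j).submatrix (S P0 j) id)⁻¹) s0)
          (fun k => C (t ^ N P0) *
            psM (fun j => Λ j * (((E j).B P0 * Λ j).submatrix (S P0 j) id)⁻¹) (s k))) =
            C (t ^ N P0) * psM Λ (sec (w i)) := by
          intro i
          have h3 : ∀ s', psM (g P0) (C (t ^ N P0) *
              psM (fun j => Λ j * (((E j).B P0 * Λ j).submatrix (S P0 j) id)⁻¹) s') =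
              C (t ^ N P0) * psM Λ s' := by
            intro s'
            rw [_root_.map_mul, psM_C, psM_psM]
            congr 2
            have : (fun j => Λ j * (((E j).B P0 * Λ j).submatrix (S P0 j) id)⁻¹ * g P0 j) = Λ := by
              funext j
              rw [Matrix.mul_assoc]
              change Λ j * ((g P0 j)⁻¹ * g P0 j) = _
              rw [Matrix.nonsing_inv_mul _ (hunit P0 j), Matrix.mul_one]
            rw [this]
          cases w i with
          | none => exact h3 s0
          | some k => exact h3 (s k)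
        rw [map_prod, Finset.prod_congr rfl (fun i _ => h2 i), Finset.prod_mul_distrib,
          Finset.prod_const, Finset.card_univ, Fintype.card_fin, ← mul_assoc, ← C_pow, ← C_mul]
        have h4 : u * (t ^ N P0) ^ Mb = 1 := by
          change t ^ (-(Mb * N P0)) * (t ^ N P0) ^ Mb = 1
          rw [← zpow_natCast, ← zpow_mul, ← zpow_add₀ ht0]
          have : -(↑Mb * N P0) + N P0 * ↑Mb = 0 := by ring
          rw [this, zpow_zero]
        rw [h4, C_1, one_mul, map_prod]
        refine Finset.prod_congr rfl fun i _ => ?_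
        rw [psM_psM]
      rw [h1]
      have := co_prod (P := P) (c := -N P) Finset.univ
        (f := fun i => psM (fun j => Λ j * (g P j)⁻¹) (sec (w i)))
        (fun i _ => hsec P _ (hsec' (w i))) α
      refine this.mono (le_of_eq ?_)
      rw [Finset.card_univ, Fintype.card_fin]
      ring
    · intro α
      rw [_root_.map_zero, mul_zero, _root_.map_zero, coeff_zero]
      exact ge_zero
    · intro x y _ _ hx hy α
      rw [_root_.map_add, mul_add, _root_.map_add]
      exact co_add hx hy α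
    · intro c x _ hx α
      have h1 : c • x = C (algebraMap ℂ K c) * x := by
        rw [C_mul', algebraMap_smul]
      rw [h1, _root_.map_mul (psM (g P0)), psM_C, mul_left_comm, _root_.map_mul, psM_C]
      have := co_mul (co_C (ge_const (P := P) c)) hx α
      rwa [zero_add] at this
  have key := hSEC E (fun j => (ddeg (d j) / R j : ℝ)) hr0 hR hSL Λ Y d hY hQ
    (fun j => by
      have : (R j : ℝ) ≠ 0 := by exact_mod_cast (hR j).ne'
      field_simp) S (fun P j => hS P j) (Mb • a') (Mb • N - Finsupp.single P0 1) G hGh hG0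
    (by
      intro P α
      by_cases hP : P = P0
      · subst hP
        have h1 : ∀ α, Ge P (-(Mb * N P) + 1) (coeff α (C u * f)) := co_mul (co_C hu) hf1
        have h2 := h1 α
        rw [← hG1] at h2
        refine h2.mono (le_of_eq ?_)
        rw [Finsupp.sub_apply, Finsupp.smul_apply, Finsupp.single_eq_same, nsmul_eq_mul]
        ring
      · refine (hall P α).mono (le_of_eq ?_)
        rw [Finsupp.sub_apply, Finsupp.smul_apply, Finsupp.single_eq_of_ne hP, nsmul_eq_mul]
        ring)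
  rw [ddeg_sub, Helper90.FJ.ddeg_single_one, ddeg_nsmul, hN, ddeg_nsmul, ha'] at key
  have hMz : (0 : ℝ) < M := by exact_mod_cast hM
  have hMbz : (0 : ℝ) < Mb := by exact_mod_cast hMb
  have h5 : (∑ j, ((Mb • (M • a)) j : ℕ) * (ddeg (d j) / R j : ℝ)) =
      Mb * (M * ∑ j, (a j : ℝ) * (ddeg (d j) / R j : ℝ)) := by
    rw [Finset.mul_sum, Finset.mul_sum]
    refine Finset.sum_congr rfl fun j _ => ?_
    rw [Pi.smul_apply, Pi.smul_apply, smul_eq_mul, smul_eq_mul]
    push_cast
    ring
  rw [h5] at key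
  push_cast at key
  have h6 : (1 : ℝ) ≤ Mb * M * (∑ j, (a j : ℝ) * (ddeg (d j) / R j : ℝ) + ddeg b) := by
    linarith
  by_contra hc
  push Not at hc
  have h7 : (Mb * M : ℝ) * (∑ j, (a j : ℝ) * (ddeg (d j) / R j : ℝ) + ddeg b) ≤ 0 :=
    mul_nonpos_of_nonneg_of_nonpos (by positivity) hc
  linarith

end Pool.Agent.Helper45.PP
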